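import Pool.Agent.U29.CY.Stm2

set_option autoImplicit false

namespace Pool.Agent.U261.CY.FPD

open Finset Filter Pool.Agent.U29.CY

theorem t_FPD : S_FPD := by
  intro f N hf
  refine ⟨?_, ?_⟩
  · have hfin : {z : ℤ | |(z : ℝ)| < N}.Finite := by
      refine (Set.finite_Icc (-⌈|N|⌉) ⌈|N|⌉).subset ?_
      intro z hz
      simp only [Set.mem_ofPred_eq] at hz
      have h1 : |(z : ℝ)| ≤ (⌈|N|⌉ : ℤ) := (hz.le.trans (le_abs_self N)).trans (Int.le_ceil _)
      have h2 : |z| ≤ ⌈|N|⌉ := by exact_mod_cast h1
      exact abs_le.mp h2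
    refine (hfin.biUnion (t := fun y => (fun i : ℕ => f^[i] y) '' Set.Iio (Function.minimalPeriod f y + 1))
      (fun y _ => (Set.finite_Iio _).image _)).subset ?_
    intro x hx
    obtain ⟨i, hi⟩ := hf x hx
    obtain ⟨n, hn, hx'⟩ := hx
    refine Set.mem_iUnion₂.mpr ⟨f^[i] x, hi, ?_⟩
    have hj : f^[n * (i + 1) - i] (f^[i] x) = x := by
      rw [← Function.iterate_add_apply]
      have : n * (i + 1) - i + i = n * (i + 1) := by
        apply Nat.sub_add_cancel
        nlinarith
      rw [this]
      exact (hx'.mul_const (i + 1))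
    refine ⟨(n * (i + 1) - i) % Function.minimalPeriod f (f^[i] x), ?_, ?_⟩
    · have hy : f^[i] x ∈ Function.periodicPts f := by
        refine ⟨n, hn, ?_⟩
        exact hx'.apply_iterate i
      have := Function.minimalPeriod_pos_of_mem_periodicPts hy
      exact (Nat.mod_lt _ this).trans (Nat.lt_succ_self _)
    · simp only
      rw [Function.iterate_mod_minimalPeriod_eq, hj]
  · intro x
    by_cases h : Function.Injective (fun i : ℕ => f^[i] x)
    · right
      have h1 : Tendsto (fun i : ℕ => f^[i] x) atTop cofinite := by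
        rw [← Nat.cofinite_eq_atTop]; exact h.tendsto_cofinite
      have h2 : Tendsto (fun z : ℤ => |z|) cofinite atTop := by
        rw [Int.cofinite_eq, tendsto_sup]
        exact ⟨tendsto_abs_atBot_atTop, tendsto_abs_atTop_atTop⟩
      exact h2.comp h1
    · left
      simp only [Function.Injective, not_forall] at h
      obtain ⟨i, j, hij, hne⟩ := h
      wlog hlt : i < j generalizing i j
      · exact this j i hij.symm (Ne.symm hne) (by omega)
      refine ⟨i, j - i, by omega, ?_⟩
      show f^[j - i] (f^[i] x) = f^[i] x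
      rw [← Function.iterate_add_apply, Nat.sub_add_cancel hlt.le]
      exact hij.symm

end Pool.Agent.U261.CY.FPD
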